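import Pool.Agent.Helper30.Full.GoalsW

/-!
# Packet W4: the estimates on `X / Ψ_n(g) X`
-/

set_option autoImplicit false
set_option linter.unusedSectionVars false

namespace Helper33W4

open Pool.Agent.Helper30.Full

universe u

noncomputable section

section alg

variable {p : ℕ} [Fact p.Prime] {d : ℕ} {X : Type u} [AddCommGroup X] [TopologicalSpace X]
  (b : Act p d X)

lemma pow_add_apply (f : AddMonoid.End X) (i j : ℕ) (x : X) :
    (f ^ (i + j)) x = (f ^ i) ((f ^ j) x) := by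
  rw [pow_add]; rfl

lemma pow_le_apply (f : AddMonoid.End X) {i j : ℕ} (h : i ≤ j) (x : X) :
    (f ^ j) x = (f ^ i) ((f ^ (j - i)) x) := by
  rw [← pow_add_apply, Nat.add_sub_cancel' h]

lemma pow_incl (f h : AddMonoid.End X) (hc : Commute f h) (hi : ∀ x, ∃ y, f x = h y) (q : ℕ)
    (x : X) : ∃ y, (f ^ q) x = (h ^ q) y := by
  induction q generalizing x with
  | zero => exact ⟨x, rfl⟩
  | succ q ih =>
    obtain ⟨y, hy⟩ := hi x
    obtain ⟨y', hy'⟩ := ih y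
    refine ⟨y', ?_⟩
    have h1 : (f ^ (q + 1)) x = (f ^ q) (f x) := by rw [pow_succ]; rfl
    have h2 : (f ^ q) (h y) = h ((f ^ q) y) :=
      congrArg (fun F : AddMonoid.End X => F y) (hc.pow_left q)
    have h3 : (h ^ (q + 1)) y' = h ((h ^ q) y') := by rw [pow_succ']; rfl
    rw [h1, hy, h2, hy', h3]

lemma psmul_incl (h : AddMonoid.End X) (q : ℕ) (hi : ∀ x, ∃ y, q • x = h y) (c : ℕ)
    (x : X) : ∃ y, (q ^ c) • x = (h ^ c) y := by
  induction c generalizing x with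
  | zero => exact ⟨x, by simp⟩
  | succ c ih =>
    obtain ⟨y, hy⟩ := hi x
    obtain ⟨y', hy'⟩ := ih y
    refine ⟨y', ?_⟩
    have h3 : (h ^ (c + 1)) y' = h ((h ^ c) y') := by rw [pow_succ']; rfl
    rw [pow_succ, mul_smul, hy, ← map_nsmul, hy', h3]

lemma Psi_comm (g k : Fin d → ℤ_[p]) (n : ℕ) (x : X) : b.σ k (Psi b g n x) = Psi b g n (b.σ k x) := by
  have h : Commute (b.σ k) (Psi b g n) := by
    unfold Psi
    exact Commute.sum_right _ _ _ fun i _ => σ_comm b _ _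
  exact congrArg (fun F : AddMonoid.End X => F x) h

lemma T_Psi (w : Fin d → ℤ_[p]) (a : ℕ) (y : X) :
    b.T (p ^ (a + 1) • w) y = Psi b w a (b.T (p ^ a • w) y) := by
  have h : b.T (p ^ (a + 1) • w) = Psi b w a * b.T (p ^ a • w) := by
    unfold Psi Act.T
    have h1 : ∀ i ∈ Finset.range p, b.σ ((i * p ^ a) • w) = b.σ (p ^ a • w) ^ i := by
      intro i _
      rw [mul_smul, σ_nsmul]
    rw [Finset.sum_congr rfl h1, geom_sum_mul, ← σ_nsmul, pow_succ', mul_smul]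
  exact congrArg (fun F : AddMonoid.End X => F y) h

lemma T_p (k : Fin d → ℤ_[p]) (x : X) : ∃ y, b.T (p • k) x = (b.T k ^ p) x + p • b.T k y := by
  obtain ⟨P, hP⟩ := T_ppow b 1 k
  refine ⟨(Polynomial.aeval (b.T k) P) x, ?_⟩
  rw [pow_one] at hP
  exact congrArg (fun F : AddMonoid.End X => F x) hP

lemma psmul_assoc (a c : ℕ) (x : X) : p ^ a • p ^ c • x = p ^ (a + c) • x := by
  rw [← mul_smul, ← pow_add]

lemma unit_g {s : ℕ} (hs : 0 < s) (hd : s ≤ d) : Unit' 0 s (e0 p d) := by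
  refine ⟨⟨0, lt_of_lt_of_le hs hd⟩, le_rfl, hs, ?_⟩
  rw [e0_zero rfl]
  exact fun h => PadicInt.prime_p.not_isUnit (isUnit_of_dvd_one h)

end alg

section core

variable {p : ℕ} [Fact p.Prime] {d : ℕ} {X : Type u} [AddCommGroup X] [TopologicalSpace X]
  (b : Act p d X) {s m n : ℕ}

/-- (A) -/
lemma lemA (hC : CycW b (e0 p d) n) (hD : DomW b s m) (hmn : m ≤ n) (u : Fin d → ℤ_[p])
    (hu : Unit' 0 s u) (x : X) : ∃ y, (b.T (e0 p d) ^ p ^ m) x = b.T u y := by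
  obtain ⟨z, -, hz⟩ := hC.q2 m hmn ⊤ (fun _ _ _ => trivial) x trivial
  obtain ⟨y, hy⟩ := hD u hu (e0 p d) z
  exact ⟨y, by rw [hz, hy]⟩

lemma core_low (hC : CycW b (e0 p d) n) (hD : DomW b s m) (j : ℕ) (hj : j + m ≤ n)
    (u : Fin d → ℤ_[p]) (hu : Unit' 0 s u) (x : X) :
    ∃ y, (b.T (e0 p d) ^ p ^ (m + j)) x = b.T (p ^ j • u) y := by
  have h1 := hC.r3 u (p ^ m) j (by omega) (fun z x => by
    refine lemA b hC hD (by omega) _ ?_ x
    obtain ⟨i, hi0, his, hi⟩ := hu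
    refine ⟨i, hi0, his, fun h => hi ?_⟩
    have h2 : (u - (p ^ (n + 1 - j) * z) • e0 p d) i = u i -
        (p : ℤ_[p]) * ((p : ℤ_[p]) ^ (n - j) * z * e0 p d i) := by
      have h3 : n + 1 - j = (n - j) + 1 := by omega
      rw [Pi.sub_apply, Pi.smul_apply, nsmul_eq_mul, h3, pow_succ']
      push_cast
      ring
    rw [h2] at h
    have h4 := dvd_add h (Dvd.intro _ rfl : (p : ℤ_[p]) ∣ (p : ℤ_[p]) *
      ((p : ℤ_[p]) ^ (n - j) * z * e0 p d i))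
    rwa [sub_add_cancel] at h4) x
  rwa [← pow_add] at h1

/-- `T_(p^i v) X ⊆ T^(p^i) X` -/
lemma core_up1 (hC : CycW b (e0 p d) n) (v : Fin d → ℤ_[p])
    (hv : ∀ x, ∃ y, b.T v x = b.T (e0 p d) y) (i : ℕ) (hi : i ≤ n + 1) (x : X) :
    ∃ y, b.T (p ^ i • v) x = (b.T (e0 p d) ^ p ^ i) y := by
  induction i generalizing x with
  | zero =>
    obtain ⟨y, hy⟩ := hv x
    exact ⟨y, by rw [pow_zero, one_smul, pow_one, hy]⟩
  | succ i ih =>
    have ih' := ih (by omega)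
    have e1 : p ^ (i + 1) • v = p • (p ^ i • v) := by rw [pow_succ', mul_smul]
    obtain ⟨y, hy⟩ := T_p b (p ^ i • v) x
    obtain ⟨y1, hy1⟩ := pow_incl (b.T (p ^ i • v)) (b.T (e0 p d) ^ p ^ i)
      ((T_comm b _ _).pow_right _) ih' p x
    obtain ⟨y2, hy2⟩ := ih' y
    obtain ⟨y3, -, hy3⟩ := hC.p1 ⊤ (fun _ _ _ => trivial) y2 trivial
    have hle : p ^ (i + 1) ≤ p ^ i + p ^ n * (p - 1) := by
      have hp := (Fact.out : p.Prime).pos
      have h5 : p ^ i * (p - 1) ≤ p ^ n * (p - 1) :=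
        Nat.mul_le_mul_right _ (Nat.pow_le_pow_right hp (by omega))
      have h6 : p ^ (i + 1) = p ^ i + p ^ i * (p - 1) := by
        obtain ⟨r, rfl⟩ : ∃ r, p = r + 1 := ⟨p - 1, by omega⟩
        rw [pow_succ, Nat.add_sub_cancel]; ring
      omega
    refine ⟨y1 + (b.T (e0 p d) ^ (p ^ i + p ^ n * (p - 1) - p ^ (i + 1))) y3, ?_⟩
    rw [e1, hy, hy1, hy2, ← map_nsmul, hy3, ← pow_add_apply, map_add, ← pow_mul, ← pow_succ,
      ← pow_le_apply _ hle]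

lemma sq_of (k : Fin d → ℤ_[p]) (c : ℕ) (hc : 1 ≤ c) (h : ∀ x, ∃ y, b.T k x = p ^ c • y) (x : X) :
    ∃ y, b.T (p • k) x = p ^ (c + 1) • y := by
  obtain ⟨y, hy⟩ := T_p b k x
  obtain ⟨y1, hy1⟩ := h y
  have h2 : 2 ≤ p := (Fact.out : p.Prime).two_le
  have e1 := pow_le_apply (b.T k) h2 x
  have e2 : (b.T k ^ 2) ((b.T k ^ (p - 2)) x) = b.T k (b.T k ((b.T k ^ (p - 2)) x)) := by
    rw [pow_two]; rfl
  obtain ⟨y2, hy2⟩ := h ((b.T k ^ (p - 2)) x)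
  obtain ⟨y3, hy3⟩ := h y2
  refine ⟨p ^ (c - 1) • y3 + y1, ?_⟩
  rw [hy, e1, e2, hy2, map_nsmul, hy3, hy1, smul_add, psmul_assoc, psmul_assoc, pow_succ' p c,
    mul_smul p (p ^ c) y1]
  congr 3
  omega

lemma core_up2 (hC : CycW b (e0 p d) n) (v : Fin d → ℤ_[p])
    (hv : ∀ x, ∃ y, b.T v x = b.T (e0 p d) y) (i : ℕ) (x : X) :
    ∃ y, b.T (p ^ (n + 1 + i) • v) x = p ^ (i + 1) • y := by
  induction i generalizing x with
  | zero =>
    obtain ⟨y, hy⟩ := core_up1 b hC v hv (n + 1) le_rfl x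
    have hle : p ^ n * (p - 1) ≤ p ^ (n + 1) := by
      rw [pow_succ]; exact Nat.mul_le_mul_left _ (Nat.sub_le _ _)
    obtain ⟨z, -, hz⟩ := hC.p2 ⊤ (fun _ _ _ => trivial)
      ((b.T (e0 p d) ^ (p ^ (n + 1) - p ^ n * (p - 1))) y) trivial
    refine ⟨z, ?_⟩
    rw [add_zero, hy, pow_le_apply _ hle, hz, zero_add, pow_one]
  | succ i ih =>
    have e1 : p ^ (n + 1 + (i + 1)) • v = p • (p ^ (n + 1 + i) • v) := by
      rw [← mul_smul, ← pow_succ']; rfl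
    rw [e1]
    exact sq_of b _ (i + 1) (by omega) ih x

lemma core_up (hs : 0 < s) (hd : s ≤ d) (hC : CycW b (e0 p d) n) (hD : DomW b s m)
    (l : ℕ) (hl : n + m + 2 ≤ l) (k : Fin d → ℤ_[p]) (x : X) :
    ∃ y, b.T (p ^ l • k) x = p ^ (l - n - m) • y := by
  obtain ⟨y, hy⟩ := core_up2 b hC (p ^ m • k) (hD _ (unit_g hs hd) k) (l - n - m - 1) x
  refine ⟨y, ?_⟩
  have e1 : p ^ l • k = p ^ (n + 1 + (l - n - m - 1)) • (p ^ m • k) := by
    rw [← mul_smul, ← pow_add]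
    congr 2
    omega
  have e2 : l - n - m - 1 + 1 = l - n - m := by omega
  rw [e1, hy, e2]

lemma e0_ne {i : Fin d} (hi : 1 ≤ (i : ℕ)) : e0 p d i = 0 := by
  unfold e0
  rw [if_neg (by omega)]

lemma core_lo1 (hC : CycW b (e0 p d) n) (hD : DomW b s m) (hmn : m ≤ n)
    (w : Fin d → ℤ_[p]) (hw : Unit' 1 s w) (x : X) :
    ∃ y, p ^ (2 * p ^ m) • x = b.T (p ^ (n + 1) • w) y := by
  have h1 := hC.r1 w (p ^ m) (fun z x => by
    refine lemA b hC hD hmn _ ?_ x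
    obtain ⟨i, hi0, his, hi⟩ := hw
    refine ⟨i, Nat.zero_le _, his, fun h => hi ?_⟩
    rwa [Pi.sub_apply, Pi.smul_apply, e0_ne hi0, smul_zero, sub_zero] at h)
  obtain ⟨y1, hy1⟩ := psmul_incl (b.T (e0 p d) ^ (p ^ n * (p - 1))) p (fun x => by
    obtain ⟨z, -, hz⟩ := hC.p1 ⊤ (fun _ _ _ => trivial) x trivial
    exact ⟨z, hz⟩) (2 * p ^ m) x
  have hle : p ^ m * p ^ (n + 1) ≤ p ^ n * (p - 1) * (2 * p ^ m) := by
    have h2 : 2 ≤ p := (Fact.out : p.Prime).two_le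
    have h3 : p ≤ 2 * (p - 1) := by omega
    calc p ^ m * p ^ (n + 1) = p ^ n * p ^ m * p := by rw [pow_succ]; ring
      _ ≤ p ^ n * p ^ m * (2 * (p - 1)) := Nat.mul_le_mul_left _ h3
      _ = p ^ n * (p - 1) * (2 * p ^ m) := by ring
  obtain ⟨y, hy⟩ := h1 ((b.T (e0 p d) ^ (p ^ n * (p - 1) * (2 * p ^ m) - p ^ m * p ^ (n + 1))) y1)
  refine ⟨y, ?_⟩
  rw [hy1, ← pow_mul, pow_le_apply _ hle, hy]

lemma core_lo2 (hs : 0 < s) (hd : s ≤ d) (hC : CycW b (e0 p d) n) (hD : DomW b s m) (hmn : m ≤ n)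
    (w : Fin d → ℤ_[p]) (j : ℕ) (hj : 1 ≤ j) (x : X) :
    ∃ y, p ^ p ^ m • x = Psi b w (n + j) y := by
  have h1 := hC.r2 w (p ^ m) j hj (fun z hz x => by
    refine lemA b hC hD hmn _ ?_ x
    refine ⟨⟨0, lt_of_lt_of_le hs hd⟩, le_rfl, hs, fun h => hz ?_⟩
    rw [Pi.sub_apply, Pi.smul_apply, Pi.smul_apply, e0_zero rfl, nsmul_eq_mul, nsmul_eq_mul,
      mul_one] at h
    have h2 : (p : ℤ_[p]) ∣ ((p ^ j : ℕ) : ℤ_[p]) * w ⟨0, lt_of_lt_of_le hs hd⟩ := by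
      refine Dvd.dvd.mul_right ?_ _
      rw [Nat.cast_pow]
      exact dvd_pow_self _ (by omega)
    have h3 : (p : ℤ_[p]) ∣ ((z : ℕ) : ℤ_[p]) := by
      have := dvd_sub h2 h
      rwa [sub_sub_cancel] at this
    have h4 : ‖((z : ℤ) : ℤ_[p])‖ < 1 := by
      rw [PadicInt.norm_lt_one_iff_dvd]
      exact_mod_cast h3
    rw [PadicInt.norm_int_lt_one_iff_dvd] at h4
    exact_mod_cast h4)
  obtain ⟨y1, hy1⟩ := psmul_incl (b.T (e0 p d) ^ (p ^ n * (p - 1))) p (fun x => by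
    obtain ⟨z, -, hz⟩ := hC.p1 ⊤ (fun _ _ _ => trivial) x trivial
    exact ⟨z, hz⟩) (p ^ m) x
  obtain ⟨y, hy⟩ := h1 y1
  exact ⟨y, by rw [hy1, ← pow_mul, mul_comm (p ^ n * (p - 1)), hy]⟩

lemma core_lo3 (hs : 0 < s) (hd : s ≤ d) (hC : CycW b (e0 p d) n) (hD : DomW b s m) (hmn : m ≤ n)
    (w : Fin d → ℤ_[p]) (hw : Unit' 1 s w) (i : ℕ) (x : X) :
    ∃ y, p ^ (2 * p ^ m + p ^ m * i) • x = b.T (p ^ (n + 1 + i) • w) y := by
  induction i generalizing x with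
  | zero => simpa using core_lo1 b hC hD hmn w hw x
  | succ i ih =>
    obtain ⟨y, hy⟩ := core_lo2 b hs hd hC hD hmn w (1 + i) (by omega) x
    obtain ⟨y', hy'⟩ := ih y
    refine ⟨y', ?_⟩
    have e1 : 2 * p ^ m + p ^ m * (i + 1) = (2 * p ^ m + p ^ m * i) + p ^ m := by ring
    have e2 : n + 1 + (i + 1) = (n + 1 + i) + 1 := rfl
    rw [e1, ← psmul_assoc, hy, ← map_nsmul, hy', e2, T_Psi, add_assoc]

end core

section top

variable {p : ℕ} [Fact p.Prime] {d : ℕ} {X : Type u} [AddCommGroup X] [TopologicalSpace X]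
  [IsTopologicalAddGroup X] [CompactSpace X] [T2Space X] (b : Act p d X) {s m n : ℕ}

lemma core_lo (hSq : StmtSq.{u}) (hs : 0 < s) (hd : s ≤ d) (hC : CycW b (e0 p d) n)
    (hD : DomW b s m) (hmn : m + 1 ≤ n) (l : ℕ) (hl : n + m + 2 ≤ l)
    (w : Fin d → ℤ_[p]) (hw : Unit' 1 s w) (x : X) :
    ∃ y, p ^ (l - n - m - 2 + (2 * p ^ m + p ^ m * (m + 1))) • x = b.T (p ^ l • w) y := by
  obtain ⟨y, hy⟩ := core_lo3 b hs hd hC hD (by omega) w hw (m + 1) x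
  have h1 : SqW b (p ^ (n + 1 + (m + 1)) • w) := by
    refine hSq p d X b _ (fun x => ?_)
    have h2 := core_up b hs hd hC hD (n + 1 + (m + 1)) (by omega) w x
    have e3 : n + 1 + (m + 1) - n - m = 2 := by omega
    rwa [e3] at h2
  obtain ⟨y', hy'⟩ := (h1 (l - n - m - 2) y).2
  refine ⟨y', ?_⟩
  have e1 : p ^ l • w = p ^ (l - n - m - 2) • (p ^ (n + 1 + (m + 1)) • w) := by
    rw [← mul_smul, ← pow_add]
    congr 2
    omega
  rw [← psmul_assoc, hy, hy', e1]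

lemma inv_Psi (g : Fin d → ℤ_[p]) (n : ℕ) :
    ∀ k, ∀ y ∈ AddMonoidHom.range (Psi b g n), b.σ k y ∈ AddMonoidHom.range (Psi b g n) := by
  rintro k _ ⟨x, rfl⟩
  exact ⟨b.σ k x, (Psi_comm b g k n x).symm⟩

lemma cont_Psi (g : Fin d → ℤ_[p]) (n : ℕ) : Continuous fun x : X => Psi b g n x := by
  have h : (fun x : X => Psi b g n x) = fun x => ∑ i ∈ Finset.range p, b.σ ((i * p ^ n) • g) x := by
    funext x
    unfold Psi
    exact AddMonoidHom.finsetSum_apply _ _ _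
  rw [h]
  exact continuous_finsetSum _ fun i _ => cont_σ b _

lemma closed_Psi (g : Fin d → ℤ_[p]) (n : ℕ) :
    IsClosed ((AddMonoidHom.range (Psi b g n)) : Set X) := by
  have h1 : ((AddMonoidHom.range (Psi b g n)) : Set X) = Set.range fun x : X => Psi b g n x := by
    ext x; rfl
  rw [h1]
  exact (isCompact_range (cont_Psi b g n)).isClosed

lemma quot_Psi (Y : AddSubgroup X) (inv : ∀ k, ∀ y ∈ Y, b.σ k y ∈ Y) (g : Fin d → ℤ_[p]) (n : ℕ)
    (x : X) : Psi (b.quot Y inv) g n (x : X ⧸ Y) = ((Psi b g n x : X) : X ⧸ Y) := by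
  have h1 : Psi (b.quot Y inv) g n (x : X ⧸ Y) =
      ∑ i ∈ Finset.range p, (b.quot Y inv).σ ((i * p ^ n) • g) (x : X ⧸ Y) := by
    unfold Psi
    exact AddMonoidHom.finsetSum_apply _ _ _
  have h2 : Psi b g n x = ∑ i ∈ Finset.range p, b.σ ((i * p ^ n) • g) x := by
    unfold Psi
    exact AddMonoidHom.finsetSum_apply _ _ _
  rw [h1, h2]
  exact (map_sum (QuotientAddGroup.mk' Y) _ _).symm

theorem stmtW4 (h3 : StmtW3.{u}) (hSq : StmtSq.{u}) : StmtW4.{u} := by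
  intro p _ d X _ _ _ _ _ b s m hs hd hD
  have hC : ∀ n, CycW (b.quot _ (inv_Psi b (e0 p d) n)) (e0 p d) n := by
    intro n
    have : IsClosed ((AddMonoidHom.range (Psi b (e0 p d) n)) : Set X) := closed_Psi b _ n
    refine h3 p d (X ⧸ AddMonoidHom.range (Psi b (e0 p d) n)) _ _ n fun x => ?_
    obtain ⟨x, rfl⟩ := QuotientAddGroup.mk_surjective x
    rw [quot_Psi]
    exact (QuotientAddGroup.eq_zero_iff _).2 ⟨x, rfl⟩
  have hDq : ∀ n, DomW (b.quot _ (inv_Psi b (e0 p d) n)) s m := by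
    intro n u hu k x
    obtain ⟨x, rfl⟩ := QuotientAddGroup.mk_surjective x
    obtain ⟨y, hy⟩ := hD u hu k x
    exact ⟨(y : X ⧸ _), by rw [quot_T, quot_T, hy]⟩
  have lift : ∀ n (a c : X), (a : X ⧸ AddMonoidHom.range (Psi b (e0 p d) n)) = (c : X ⧸ _) →
      ∃ z, a = c + Psi b (e0 p d) n z := by
    intro n a c h
    obtain ⟨z, hz⟩ := QuotientAddGroup.eq.1 h.symm
    have hz' : Psi b (e0 p d) n z = -c + a := hz
    exact ⟨z, by rw [hz']; abel⟩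
  constructor
  · intro n x
    obtain ⟨z, -, hz⟩ := (hC n).p1 ⊤ (fun _ _ _ => trivial) x trivial
    obtain ⟨y, rfl⟩ := QuotientAddGroup.mk_surjective z
    rw [quot_Tpow] at hz
    exact ⟨y, lift n _ _ hz⟩
  · intro n x
    obtain ⟨z, -, hz⟩ := (hC n).p2 ⊤ (fun _ _ _ => trivial) x trivial
    obtain ⟨y, rfl⟩ := QuotientAddGroup.mk_surjective z
    rw [quot_Tpow] at hz
    exact ⟨y, lift n _ _ hz⟩
  · intro n j hj u hu x
    obtain ⟨z, hz⟩ := core_low _ (hC n) (hDq n) j hj u hu x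
    obtain ⟨y, rfl⟩ := QuotientAddGroup.mk_surjective z
    rw [quot_Tpow, quot_T] at hz
    exact ⟨y, lift n _ _ hz⟩
  · intro n l _ hl k x
    obtain ⟨z, hz⟩ := core_up _ hs hd (hC n) (hDq n) l hl k x
    obtain ⟨y, rfl⟩ := QuotientAddGroup.mk_surjective z
    rw [quot_T] at hz
    exact ⟨y, lift n _ _ hz⟩
  · intro n l hn hl w hw x
    have : IsClosed ((AddMonoidHom.range (Psi b (e0 p d) n)) : Set X) := closed_Psi b _ n
    obtain ⟨z, hz⟩ := core_lo _ hSq hs hd (hC n) (hDq n) hn l hl w hw x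
    obtain ⟨y, rfl⟩ := QuotientAddGroup.mk_surjective z
    rw [quot_T] at hz
    exact ⟨y, lift n _ _ hz⟩

end top

end

end Helper33W4

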