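import Pool.Agent.Helper30.Full.GoalsG

/-!
# Packet LIN: groups of automorphisms of finitely generated `ℤ_p`-modules
-/

set_option autoImplicit false
set_option linter.unusedSectionVars false

namespace Helper33Lin

open Pool.Agent.Helper30.Full

universe u

noncomputable section

section V

variable {V : Type u} [AddCommGroup V] (p : ℕ)

/-- `p ^ i V` -/
def P (i : ℕ) : AddSubgroup V := AddMonoidHom.range (nsmulAddMonoidHom (α := V) (p ^ i))

lemma mem_P {i : ℕ} {v : V} : v ∈ P p i ↔ ∃ w : V, v = p ^ i • w := by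
  unfold P
  rw [AddMonoidHom.mem_range]
  exact ⟨fun ⟨w, hw⟩ => ⟨w, hw.symm⟩, fun ⟨w, hw⟩ => ⟨w, hw.symm⟩⟩

lemma P_anti {i j : ℕ} (h : i ≤ j) : (P p j : AddSubgroup V) ≤ P p i := by
  intro v hv
  obtain ⟨w, rfl⟩ := (mem_P p).1 hv
  exact (mem_P p).2 ⟨p ^ (j - i) • w, by rw [← mul_smul, ← pow_add, Nat.add_sub_cancel' h]⟩

/-- `{w | p ^ i w ∈ p ^ (i + 1) V}` -/
def A (i : ℕ) : AddSubgroup V := (P p (i + 1)).comap (nsmulAddMonoidHom (p ^ i))

lemma mem_A {i : ℕ} {v : V} : v ∈ A p i ↔ ∃ w : V, p ^ i • v = p ^ (i + 1) • w := by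
  unfold A
  rw [AddSubgroup.mem_comap, mem_P]
  rfl

lemma A_mono : Monotone (A p : ℕ → AddSubgroup V) := by
  refine monotone_nat_of_le_succ fun i v hv => ?_
  obtain ⟨w, hw⟩ := (mem_A p).1 hv
  exact (mem_A p).2 ⟨w, by rw [pow_succ', mul_smul, hw, ← mul_smul, ← pow_succ']⟩

lemma P1_le_A (i : ℕ) : (P p 1 : AddSubgroup V) ≤ A p i := by
  intro v hv
  obtain ⟨w, rfl⟩ := (mem_P p).1 hv
  exact (mem_A p).2 ⟨w, by rw [← mul_smul, ← pow_add]⟩

lemma A_stab [Finite (V ⧸ (P p 1 : AddSubgroup V))] :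
    ∃ n, ∀ m ≥ n, (A p n : AddSubgroup V) = A p m := by
  have : Finite (AddSubgroup (V ⧸ (P p 1 : AddSubgroup V))) :=
    Finite.of_injective (fun S => (S : Set (V ⧸ (P p 1 : AddSubgroup V)))) SetLike.coe_injective
  obtain ⟨n, hn⟩ := WellFoundedGT.monotone_chain_condition
    (⟨fun i => (A p i).map (QuotientAddGroup.mk' (P p 1 : AddSubgroup V)), fun i j hij =>
      AddSubgroup.map_mono (A_mono p hij)⟩ : ℕ →o AddSubgroup (V ⧸ (P p 1 : AddSubgroup V)))
  refine ⟨n, fun m hm => ?_⟩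
  have h1 := hn m hm
  have h2 : ∀ i, ((A p i).map (QuotientAddGroup.mk' (P p 1 : AddSubgroup V))).comap
      (QuotientAddGroup.mk' (P p 1 : AddSubgroup V)) = A p i := by
    intro i
    rw [AddSubgroup.comap_map_eq, QuotientAddGroup.ker_mk', sup_eq_left]
    exact P1_le_A p i
  rw [← h2 n, ← h2 m]
  exact congrArg _ h1

variable [TopologicalSpace V] [IsTopologicalAddGroup V] [CompactSpace V] [T2Space V]

lemma P_closed (i : ℕ) : IsClosed ((P p i : AddSubgroup V) : Set V) := by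
  have h1 : ((P p i : AddSubgroup V) : Set V) = Set.range fun x : V => p ^ i • x := by
    ext x; rfl
  rw [h1]
  exact (isCompact_range (continuous_nsmul _)).isClosed

lemma P_fin (hp : p ≠ 0) (F : Finset V)
    (hF : ∀ U : AddSubgroup V, IsClosed (U : Set V) → (F : Set V) ⊆ (U : Set V) → U = ⊤) (i : ℕ) :
    Finite (V ⧸ (P p i : AddSubgroup V)) := by
  classical
  have : IsClosed ((P p i : AddSubgroup V) : Set V) := P_closed p i
  set S := AddSubgroup.closure ((fun v : V => (v : V ⧸ (P p i : AddSubgroup V))) '' (F : Set V))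
    with hS
  have hfg : AddGroup.FG S := by
    rw [AddGroup.fg_iff_addSubgroup_fg]
    exact ⟨F.image (fun v : V => (v : V ⧸ (P p i : AddSubgroup V))), by rw [Finset.coe_image]⟩
  have htor : IsAddTorsion S := by
    intro x
    rw [isOfFinAddOrder_iff_nsmul_eq_zero]
    refine ⟨p ^ i, pow_pos (Nat.pos_of_ne_zero hp) i, ?_⟩
    ext
    obtain ⟨v, hv⟩ := QuotientAddGroup.mk_surjective (x : V ⧸ (P p i : AddSubgroup V))
    show p ^ i • (x : V ⧸ (P p i : AddSubgroup V)) = 0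
    rw [← hv]
    exact (QuotientAddGroup.eq_zero_iff _).2 ((mem_P p).2 ⟨v, rfl⟩)
  have hfin : Finite S := AddCommGroup.finite_of_fg_isAddTorsion S htor
  have hcl : IsClosed (S : Set (V ⧸ (P p i : AddSubgroup V))) := Set.Finite.isClosed (Set.toFinite _)
  have htop := hF (S.comap (QuotientAddGroup.mk' (P p i : AddSubgroup V)))
    (hcl.preimage continuous_quot_mk) (fun v hv => AddSubgroup.subset_closure ⟨v, hv, rfl⟩)
  have hST : S = ⊤ := by
    rw [eq_top_iff]
    intro x _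
    obtain ⟨v, rfl⟩ := QuotientAddGroup.mk_surjective x
    have : v ∈ S.comap (QuotientAddGroup.mk' (P p i : AddSubgroup V)) := by rw [htop]; trivial
    exact this
  have h3 : Finite ((⊤ : AddSubgroup (V ⧸ (P p i : AddSubgroup V)))) := by rw [← hST]; exact hfin
  exact Finite.of_equiv _ AddSubgroup.topEquiv.toEquiv

lemma P_open (i : ℕ) [Finite (V ⧸ (P p i : AddSubgroup V))] :
    IsOpen ((P p i : AddSubgroup V) : Set V) := by
  have : (P p i : AddSubgroup V).FiniteIndex := AddSubgroup.finiteIndex_of_finite_quotient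
  exact AddSubgroup.isOpen_of_isClosed_of_finiteIndex _ (P_closed p i)

end V

section H

variable {p : ℕ} {H : Type u} [Group H] {V : Type u} [AddCommGroup V] (σ : H →* AddMonoid.End V)

lemma σ_P (h : H) {i : ℕ} {v : V} (hv : v ∈ P p i) : σ h v ∈ P p i := by
  obtain ⟨w, rfl⟩ := (mem_P p).1 hv
  exact (mem_P p).2 ⟨σ h w, map_nsmul _ _ _⟩

lemma σ_mul (g h : H) (v : V) : σ (g * h) v = σ g (σ h v) := by rw [map_mul]; rfl

lemma σ_one (v : V) : σ 1 v = v := by rw [map_one]; rfl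

variable (p) in
/-- the subgroup acting trivially on `V / p ^ i V` -/
def Γ (i : ℕ) : Subgroup H where
  carrier := {h | ∀ v, σ h v - v ∈ P p i}
  one_mem' := fun v => by rw [σ_one, sub_self]; exact (P p i).zero_mem
  mul_mem' := fun {a b} ha hb v => by
    have h1 : σ (a * b) v - v = (σ a (σ b v) - σ b v) + (σ b v - v) := by
      rw [σ_mul]; abel
    rw [h1]
    exact (P p i).add_mem (ha _) (hb _)
  inv_mem' := fun {a} ha v => by
    have h1 : σ a⁻¹ v - v = - (σ a (σ a⁻¹ v) - σ a⁻¹ v) := by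
      rw [← σ_mul, mul_inv_cancel, σ_one]; abel
    rw [h1]
    exact (P p i).neg_mem (ha _)

lemma mem_Γ {i : ℕ} {h : H} : h ∈ Γ p σ i ↔ ∀ v, σ h v - v ∈ P p i := Iff.rfl

lemma Γ_anti {i j : ℕ} (h : i ≤ j) : Γ p σ j ≤ Γ p σ i := fun _ hg v => P_anti p h (hg v)

lemma pow_formula {i : ℕ} (hi : 2 ≤ i) {h : H} (hh : h ∈ Γ p σ i) (n : ℕ) (v : V) :
    ∃ u, σ (h ^ n) v = v + n • (σ h v - v) + p ^ (i + 2) • u := by
  have key : ∀ v, ∃ u, σ h (σ h v - v) - (σ h v - v) = p ^ (i + 2) • u := by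
    intro v
    obtain ⟨w, hw⟩ := (mem_P p).1 (hh v)
    obtain ⟨w', hw'⟩ := (mem_P p).1 (hh w)
    refine ⟨p ^ (i - 2) • w', ?_⟩
    rw [hw, map_nsmul, ← smul_sub, hw', ← mul_smul, ← mul_smul, ← pow_add, ← pow_add]
    congr 2
    omega
  induction n with
  | zero => exact ⟨0, by rw [pow_zero, σ_one]; simp⟩
  | succ n ih =>
    obtain ⟨u, hu⟩ := ih
    obtain ⟨u', hu'⟩ := key v
    refine ⟨n • u' + σ h u, ?_⟩
    have e1 : σ h (σ h v - v) = (σ h v - v) + p ^ (i + 2) • u' := by rw [← hu']; abel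
    have e2 : σ h v = v + (σ h v - v) := by abel
    rw [pow_succ', σ_mul, hu, map_add, map_add, map_nsmul, map_nsmul, e1]
    generalize hδ : σ h v - v = δ at *
    rw [e2, add_smul, one_smul, smul_add, smul_add, smul_comm n (p ^ (i + 2)) u']
    abel

variable [TopologicalSpace H] [IsTopologicalGroup H] [TopologicalSpace V]
  [IsTopologicalAddGroup V] [CompactSpace V] [T2Space V]

lemma Γ_open (hc : Continuous fun x : H × V => σ x.1 x.2) (i : ℕ)
    (hP : IsOpen ((P p i : AddSubgroup V) : Set V)) : IsOpen ((Γ p σ i : Subgroup H) : Set H) := by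
  have h1 : IsOpen {z : H × V | σ z.1 z.2 - z.2 ∈ (P p i : AddSubgroup V)} :=
    hP.preimage (hc.sub continuous_snd)
  obtain ⟨u, v, hu, hv, hu0, hv0, huv⟩ := generalized_tube_lemma
    (isCompact_singleton (x := (1 : H))) (isCompact_univ (X := V)) h1 (by
      rintro ⟨l, x⟩ ⟨hl, -⟩
      have hl' : l = 1 := hl
      show σ l x - x ∈ (P p i : AddSubgroup V)
      rw [hl', σ_one, sub_self]; exact (P p i).zero_mem)
  refine Subgroup.isOpen_of_mem_nhds _ (g := 1) (Filter.mem_of_superset (hu.mem_nhds (hu0 rfl)) ?_)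
  intro h hh v
  exact huv (Set.mk_mem_prod hh (hv0 trivial))

end H

theorem stmtLin : StmtLin.{u} := by
  intro p _ H _ _ _ _ _ _ V _ _ _ _ _ σ hc hbasis ⟨F, hF⟩ N hN hNc hNp
  have hp : p ≠ 0 := (Fact.out : p.Prime).ne_zero
  have hfin : ∀ i, Finite (V ⧸ (P p i : AddSubgroup V)) := fun i => P_fin p hp F hF i
  have hopen : ∀ i, IsOpen ((P p i : AddSubgroup V) : Set V) := fun i =>
    haveI := hfin i
    P_open p i
  have hΓ : ∀ i, IsOpen ((Γ p σ i : Subgroup H) : Set H) := fun i => Γ_open σ hc i (hopen i)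
  have := hfin 1
  obtain ⟨i₀, hi₀⟩ := A_stab (V := V) p
  set B : AddSubgroup V := A p i₀ with hB
  have hBfin : Finite (V ⧸ B) := by
    refine Finite.of_surjective (fun x : V ⧸ (P p 1 : AddSubgroup V) =>
      QuotientAddGroup.map (P p 1) B (AddMonoidHom.id V) (P1_le_A p i₀) x) ?_
    intro y
    obtain ⟨v, rfl⟩ := QuotientAddGroup.mk_surjective y
    exact ⟨(v : V ⧸ (P p 1 : AddSubgroup V)), rfl⟩
  have hpB : ∀ w : V, p • w ∈ B := fun w => P1_le_A p i₀ ((mem_P p).2 ⟨w, by rw [pow_one]⟩)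
  -- the sets `L i`
  let L : ℕ → Set (↥F → V ⧸ B) := fun i => {D | ∃ h ∈ Γ p σ i, ∀ f : ↥F, ∃ w : V,
    (w : V ⧸ B) = D f ∧ σ h (f : V) - (f : V) = p ^ i • w}
  have hpow : ∀ i, 2 ≤ i → ∀ h ∈ Γ p σ i, h ^ p ∈ Γ p σ (i + 1) := by
    intro i hi h hh v
    obtain ⟨u, hu⟩ := pow_formula σ hi hh p v
    obtain ⟨w, hw⟩ := (mem_P p).1 (hh v)
    rw [mem_P]
    refine ⟨w + p • u, ?_⟩
    rw [hu, hw, smul_add, ← mul_smul, ← pow_succ', ← mul_smul, ← pow_succ]
    abel
  have hLmono : ∀ i, 2 ≤ i → L i ⊆ L (i + 1) := by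
    rintro i hi D ⟨h, hh, hD⟩
    refine ⟨h ^ p, hpow i hi h hh, fun f => ?_⟩
    obtain ⟨w, hw, hw'⟩ := hD f
    obtain ⟨u, hu⟩ := pow_formula σ hi hh p (f : V)
    refine ⟨w + p • u, ?_, ?_⟩
    · rw [← hw]
      refine (QuotientAddGroup.eq.2 ?_)
      have : -(w + p • u) + w = -(p • u) := by abel
      rw [this]
      exact B.neg_mem (hpB u)
    · rw [hu, hw', smul_add, ← mul_smul, ← pow_succ', ← mul_smul, ← pow_succ]
      abel
  have hL : ∃ n, ∀ m ≥ n, L (n + 2) = L (m + 2) := by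
    have hm : Monotone fun i => L (i + 2) :=
      monotone_nat_of_le_succ fun i => hLmono (i + 2) (by omega)
    obtain ⟨n, hn⟩ := WellFoundedGT.monotone_chain_condition
      (⟨fun i => L (i + 2), hm⟩ : ℕ →o Set (↥F → V ⧸ B))
    exact ⟨n, fun m hm => hn m hm⟩
  obtain ⟨n₁, hn₁⟩ := hL
  set i₁ := max (n₁ + 2) i₀ with hi₁
  have hstep : ∀ i ≥ i₁, ∀ h ∈ Γ p σ (i + 1), ∃ a ∈ N, a * h ∈ Γ p σ (i + 2) := by
    intro i hi h hh
    have hi2 : n₁ + 2 ≤ i := le_trans (le_max_left _ _) hi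
    have hi0 : i₀ ≤ i := le_trans (le_max_right _ _) hi
    have hLi : L i = L (i + 1) := by
      have h1 := hn₁ (i - 2) (by omega)
      have h2 := hn₁ (i + 1 - 2) (by omega)
      rw [h1] at h2
      have e1 : i - 2 + 2 = i := by omega
      have e2 : i + 1 - 2 + 2 = i + 1 := by omega
      rwa [e1, e2] at h2
    have hw : ∀ f : ↥F, ∃ w : V, σ h (f : V) - (f : V) = p ^ (i + 1) • w := fun f =>
      (mem_P p).1 (hh f)
    choose w hw using hw
    have hD : (fun f => (w f : V ⧸ B)) ∈ L (i + 1) := ⟨h, hh, fun f => ⟨w f, rfl, hw f⟩⟩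
    rw [← hLi] at hD
    obtain ⟨h₁, hh₁, hD⟩ := hD
    have hsub : ∀ v : V, σ (h₁ ^ p) v - σ h v ∈ (P p (i + 2) : AddSubgroup V) := by
      have hcl : IsClosed {v : V | σ (h₁ ^ p) v - σ h v ∈ (P p (i + 2) : AddSubgroup V)} := by
        refine (P_closed p (i + 2)).preimage ?_
        exact (hc.comp (Continuous.prodMk_right (h₁ ^ p))).sub
          (hc.comp (Continuous.prodMk_right h))
      let U : AddSubgroup V :=
        { carrier := {v : V | σ (h₁ ^ p) v - σ h v ∈ (P p (i + 2) : AddSubgroup V)}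
          zero_mem' := by
            show σ (h₁ ^ p) 0 - σ h 0 ∈ (P p (i + 2) : AddSubgroup V)
            rw [map_zero, map_zero, sub_zero]; exact (P p (i + 2)).zero_mem
          add_mem' := fun {a b} ha hb => by
            show σ (h₁ ^ p) (a + b) - σ h (a + b) ∈ (P p (i + 2) : AddSubgroup V)
            have : σ (h₁ ^ p) (a + b) - σ h (a + b) =
              (σ (h₁ ^ p) a - σ h a) + (σ (h₁ ^ p) b - σ h b) := by
              rw [map_add, map_add]; abel
            rw [this]; exact (P p (i + 2)).add_mem ha hb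
          neg_mem' := fun {a} ha => by
            show σ (h₁ ^ p) (-a) - σ h (-a) ∈ (P p (i + 2) : AddSubgroup V)
            have : σ (h₁ ^ p) (-a) - σ h (-a) = -(σ (h₁ ^ p) a - σ h a) := by
              rw [map_neg, map_neg]; abel
            rw [this]; exact (P p (i + 2)).neg_mem ha }
      have hU : U = ⊤ := by
        refine hF U hcl fun f hf => ?_
        obtain ⟨w', hw', hw''⟩ := hD ⟨f, hf⟩
        obtain ⟨u, hu⟩ := pow_formula σ (by omega : 2 ≤ i) hh₁ p f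
        have h4 : w' - w ⟨f, hf⟩ ∈ A p (i + 1) := by
          have h5 : -w' + w ⟨f, hf⟩ ∈ B := QuotientAddGroup.eq.1 hw'
          rw [← hi₀ (i + 1) (by omega)]
          have : w' - w ⟨f, hf⟩ = -(-w' + w ⟨f, hf⟩) := by abel
          rw [this]
          exact B.neg_mem h5
        obtain ⟨x, hx⟩ := (mem_A p).1 h4
        show σ (h₁ ^ p) f - σ h f ∈ (P p (i + 2) : AddSubgroup V)
        rw [mem_P]
        refine ⟨x + u, ?_⟩
        have h6 := hw ⟨f, hf⟩
        have h7 : σ h f = f + p ^ (i + 1) • w ⟨f, hf⟩ := by rw [← h6]; simp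
        have h8 : σ h₁ f - f = p ^ i • w' := hw''
        rw [hu, h7, h8, smul_add, ← hx, ← mul_smul, ← pow_succ', smul_sub]
        abel
      intro v
      have : v ∈ U := by rw [hU]; trivial
      exact this
    refine ⟨(h₁ ^ p)⁻¹, N.inv_mem (hNp h₁), fun v => ?_⟩
    have h9 : σ ((h₁ ^ p)⁻¹ * h) v - v = -σ (h₁ ^ p)⁻¹ (σ (h₁ ^ p) v - σ h v) := by
      rw [σ_mul, map_sub, ← σ_mul σ _ (h₁ ^ p) v, inv_mul_cancel, σ_one]; abel
    rw [h9]
    exact (P p (i + 2)).neg_mem (σ_P σ _ (hsub v))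
  refine ⟨Γ p σ (i₁ + 1), hΓ _, fun h hh => ?_⟩
  have hseq : ∀ j, ∃ a ∈ N, a * h ∈ Γ p σ (i₁ + 1 + j) := by
    intro j
    induction j with
    | zero => exact ⟨1, N.one_mem, by rw [one_mul]; exact hh⟩
    | succ j ih =>
      obtain ⟨a, ha, hah⟩ := ih
      have e1 : i₁ + 1 + j = (i₁ + j) + 1 := by omega
      rw [e1] at hah
      obtain ⟨a', ha', hah'⟩ := hstep (i₁ + j) (by omega) _ hah
      refine ⟨a' * a, N.mul_mem ha' ha, ?_⟩
      rw [mul_assoc]
      have e2 : i₁ + 1 + (j + 1) = i₁ + j + 2 := by omega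
      rw [e2]; exact hah'
  have hcompact : (⋂ j : ℕ, {a : H | a ∈ N ∧ a * h ∈ Γ p σ (i₁ + 1 + j)}).Nonempty := by
    have hclosed : ∀ j : ℕ, IsClosed {a : H | a ∈ N ∧ a * h ∈ Γ p σ (i₁ + 1 + j)} := by
      intro j
      refine hNc.inter ?_
      have h1 : IsClosed ((Γ p σ (i₁ + 1 + j) : Subgroup H) : Set H) :=
        Subgroup.isClosed_of_isOpen _ (hΓ _)
      exact h1.preimage (continuous_mul_const h)
    refine IsCompact.nonempty_iInter_of_sequence_nonempty_isCompact_isClosed _ ?_ ?_ ?_ hclosed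
    · rintro j a ⟨ha, ha'⟩
      exact ⟨ha, Γ_anti σ (by omega) ha'⟩
    · intro j
      obtain ⟨a, ha, ha'⟩ := hseq j
      exact ⟨a, ha, ha'⟩
    · exact (hclosed 0).isCompact
  obtain ⟨a, ha⟩ := hcompact
  rw [Set.mem_iInter] at ha
  refine ⟨a, (ha 0).1, fun v => ?_⟩
  by_contra hne
  have hx : σ (a * h) v - v ≠ 0 := sub_ne_zero.2 hne
  obtain ⟨U, -, hUW, n, hn⟩ := hbasis {σ (a * h) v - v}ᶜ isOpen_compl_singleton
    (fun h0 => hx (Set.mem_singleton_iff.1 h0).symm)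
  have h1 : σ (a * h) v - v ∈ (P p n : AddSubgroup V) := P_anti p (by omega) ((ha n).2 v)
  obtain ⟨w, hw⟩ := (mem_P p).1 h1
  have h2 : σ (a * h) v - v ∈ (U : Set V) := by rw [hw]; exact hn w
  exact hUW h2 rfl

end

end Helper33Lin

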